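import Pool.Agent.Y140.AW.Stm2

/-!
# Project AW, piece DATA2
-/

set_option autoImplicit false

namespace Pool.Agent.Y534.AW2

open Polynomial Pool.Agent.H391R2 Pool.Agent.H391R2.T4 Pool.Agent.Y140.AW

theorem key (K E : Type) [Field K] [Field E] [Algebra (RatFunc K) E] [Algebra K E]
    [IsScalarTower K (RatFunc K) E] [FiniteDimensional (RatFunc K) E] [IsGalois (RatFunc K) E] :
    ∃ (D₁ : K[X]) (y : E), D₁ ≠ 0 ∧
      IsIntegral (Algebra.adjoin K {algebraMap (RatFunc K) E RatFunc.X}) y ∧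
      ∀ σ : E ≃ₐ[RatFunc K] E, σ ≠ 1 → σ y ≠ y ∧
        IsIntegral (Algebra.adjoin K {algebraMap (RatFunc K) E RatFunc.X})
          (aeval (algebraMap (RatFunc K) E RatFunc.X) D₁ / (σ y - y)) := by
  classical
  letI : Algebra K[X] E :=
    ((algebraMap (RatFunc K) E).comp (algebraMap K[X] (RatFunc K))).toAlgebra
  haveI : IsScalarTower K[X] (RatFunc K) E := IsScalarTower.of_algebraMap_eq fun _ => rfl
  haveI : Fintype (E ≃ₐ[RatFunc K] E) := Fintype.ofFinite _
  have hX : ∀ q : K[X], aeval (algebraMap (RatFunc K) E RatFunc.X) q = algebraMap K[X] E q := by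
    intro q
    show aeval (algebraMap (RatFunc K) E RatFunc.X) q =
      algebraMap (RatFunc K) E (algebraMap K[X] (RatFunc K) q)
    rw [← RatFunc.algebraMap_X, aeval_algebraMap_apply, aeval_algebraMap_apply,
      aeval_X_left_apply]
  obtain ⟨x, hx⟩ : ∃ x : E, x = algebraMap (RatFunc K) E RatFunc.X := ⟨_, rfl⟩
  rw [← hx] at hX ⊢
  have hint : ∀ z : E, IsIntegral K[X] z → IsIntegral (Algebra.adjoin K {x}) z := by
    intro z hz
    refine IsIntegral.map_of_comp_eq
      (aeval (⟨x, Algebra.self_mem_adjoin_singleton K x⟩ : Algebra.adjoin K {x})).toRingHom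
      (RingHom.id E) ?_ hz
    refine RingHom.ext fun q => ?_
    show algebraMap (Algebra.adjoin K {x}) E
      (aeval (⟨x, Algebra.self_mem_adjoin_singleton K x⟩ : Algebra.adjoin K {x}) q) =
      algebraMap K[X] E q
    rw [← aeval_algebraMap_apply, ← hX]
    rfl
  have hconj : ∀ (σ : E ≃ₐ[RatFunc K] E) (z : E), IsIntegral K[X] z → IsIntegral K[X] (σ z) := by
    intro σ z hz
    refine IsIntegral.map_of_comp_eq (RingHom.id K[X]) (σ : E →+* E) ?_ hz
    refine RingHom.ext fun q => ?_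
    exact (σ.commutes (algebraMap K[X] (RatFunc K) q)).symm
  obtain ⟨α, hα⟩ := Field.exists_primitive_element (RatFunc K) E
  have halg : IsAlgebraic K[X] α :=
    (IsFractionRing.isAlgebraic_iff K[X] (RatFunc K) E).2 (Algebra.IsAlgebraic.isAlgebraic α)
  obtain ⟨r, hr, hri⟩ := halg.exists_integral_multiple
  obtain ⟨y, hy⟩ : ∃ y : E, y = r • α := ⟨_, rfl⟩
  rw [← hy] at hri
  have hr' : algebraMap K[X] E r ≠ 0 := by
    show algebraMap (RatFunc K) E (algebraMap K[X] (RatFunc K) r) ≠ 0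
    intro h
    rw [map_eq_zero] at h
    exact hr ((map_eq_zero_iff _ (IsFractionRing.injective K[X] (RatFunc K))).1 h)
  have hone : ∀ σ : E ≃ₐ[RatFunc K] E, σ y = y → σ = 1 := by
    intro σ h
    rw [hy, Algebra.smul_def, map_mul] at h
    have h1 : σ (algebraMap K[X] E r) = algebraMap K[X] E r :=
      σ.commutes (algebraMap K[X] (RatFunc K) r)
    rw [h1] at h
    have h2 : σ α = α := mul_left_cancel₀ hr' h
    have h3 : Subgroup.zpowers σ ≤ MulAction.stabilizer (E ≃ₐ[RatFunc K] E) α := by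
      rw [Subgroup.zpowers_le]
      exact h2
    have h4 : α ∈ IntermediateField.fixedField (Subgroup.zpowers σ) := by
      rw [IntermediateField.mem_fixedField_iff]
      intro f hf
      exact h3 hf
    have h5 : (⊤ : IntermediateField (RatFunc K) E) ≤
        IntermediateField.fixedField (Subgroup.zpowers σ) := by
      rw [← hα]
      exact IntermediateField.adjoin_simple_le_iff.2 h4
    ext z
    have h6 := h5 (IntermediateField.mem_top (x := z))
    rw [IntermediateField.mem_fixedField_iff] at h6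
    exact h6 σ (Subgroup.mem_zpowers σ)
  have hinj : ∀ σ τ : E ≃ₐ[RatFunc K] E, σ y = τ y → σ = τ := by
    intro σ τ h
    have h1 : (τ⁻¹ * σ) y = y := by
      show τ⁻¹ (σ y) = y
      rw [h]
      exact τ.symm_apply_apply y
    have h2 := hone _ h1
    exact (inv_mul_eq_one.1 h2).symm
  obtain ⟨P, hP⟩ : ∃ P : E, P = ∏ p ∈ (Finset.univ : Finset (E ≃ₐ[RatFunc K] E)).offDiag,
    (p.1 y - p.2 y) := ⟨_, rfl⟩
  have hPi : IsIntegral K[X] P := by
    rw [hP]
    exact IsIntegral.prod _ fun p _ => (hconj p.1 y hri).sub (hconj p.2 y hri)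
  have hP0 : P ≠ 0 := by
    rw [hP, Finset.prod_ne_zero_iff]
    intro p hp h
    rw [Finset.mem_offDiag] at hp
    exact hp.2.2 (hinj _ _ (sub_eq_zero.1 h))
  have hPf : ∀ ρ : E ≃ₐ[RatFunc K] E, ρ P = P := by
    intro ρ
    rw [hP, map_prod]
    refine Finset.prod_equiv ((Equiv.mulLeft ρ).prodCongr (Equiv.mulLeft ρ)) ?_ ?_
    · intro p
      simp only [Finset.mem_offDiag, Finset.mem_univ, true_and, Equiv.prodCongr_apply,
        Prod.map_fst, Prod.map_snd, Equiv.coe_mulLeft, ne_eq, mul_right_inj]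
    · intro p _
      rw [map_sub]
      rfl
  obtain ⟨c, hc⟩ := (IsGalois.mem_range_algebraMap_iff_fixed P).2 hPf
  have hci : IsIntegral K[X] c := by
    rw [← isIntegral_algebraMap_iff (algebraMap (RatFunc K) E).injective, hc]
    exact hPi
  obtain ⟨D₁, hD⟩ := (IsIntegrallyClosed.isIntegral_iff (R := K[X]) (K := RatFunc K)).1 hci
  have hDP : algebraMap K[X] E D₁ = P := by
    show algebraMap (RatFunc K) E (algebraMap K[X] (RatFunc K) D₁) = P
    rw [hD, hc]
  refine ⟨D₁, y, ?_, hint y hri, ?_⟩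
  · intro h
    rw [h, map_zero] at hDP
    exact hP0 hDP.symm
  · intro σ hσ
    have hne : σ y ≠ y := fun h => hσ (hone σ h)
    refine ⟨hne, hint _ ?_⟩
    rw [hX, hDP]
    have hm : (σ, (1 : E ≃ₐ[RatFunc K] E)) ∈
        (Finset.univ : Finset (E ≃ₐ[RatFunc K] E)).offDiag := by
      rw [Finset.mem_offDiag]
      exact ⟨Finset.mem_univ _, Finset.mem_univ _, hσ⟩
    have h1 := Finset.mul_prod_erase _ (fun p : (E ≃ₐ[RatFunc K] E) × (E ≃ₐ[RatFunc K] E) =>
      p.1 y - p.2 y) hm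
    have h2 : P / (σ y - y) = ∏ p ∈ ((Finset.univ : Finset (E ≃ₐ[RatFunc K] E)).offDiag).erase
        (σ, 1), (p.1 y - p.2 y) := by
      rw [div_eq_iff (sub_ne_zero.2 hne), hP, ← h1, mul_comm]
      rfl
    rw [h2]
    exact IsIntegral.prod _ fun p _ => (hconj p.1 y hri).sub (hconj p.2 y hri)

theorem t_data2 (h : St_data) : St_data2 := by
  intro K _ Γ G _ _ _ _ f hf hreg
  obtain ⟨E, i1, i2, i3, i4, i5, i6, g, θ, Θ, D₀, h1, h2, h3, h4, h5⟩ := h K Γ G f hf hreg
  obtain ⟨D₁, y, h6, h7, h8⟩ := key K E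
  exact ⟨E, i1, i2, i3, i4, i5, i6, g, θ, Θ, D₀, D₁, y, h1, h2, h3, h4, h5, h6, h7, h8⟩

end Pool.Agent.Y534.AW2
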